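import Pool.Agent.H.MP_efec2f_gt.C

namespace Pool.Agent.Results.MP_efec2f_gt.No

open Filter Pool.Agent.H.MP_efec2f_gt
open scoped NNReal

theorem result : ∃ (X Y : Type) (_ : MetricSpace X) (_ : MetricSpace Y),
    ProperSpace X ∧ ProperSpace Y ∧ Geodesic X ∧ Geodesic Y ∧
    (∀ (ω : Ultrafilter ℕ) (r : ℕ → ℝ≥0) (x : ℕ → X) (y : ℕ → Y), (∀ n, ω ≠ pure n) →
      Tendsto r atTop atTop → Nonempty (Cone ω x r ≃ᵢ Cone ω y r)) ∧
    Spec X {n | 1 ≤ n} ≠ Spec Y {n | 1 ≤ n} ∧ Spec X Set.univ ≠ Spec Y Set.univ :=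
  ⟨UpperHalfPlane, Tr, inferInstance, inferInstance, inferInstance, inferInstance, geo_H, geo_T,
    fun _ _ _ y hω hr => cones_iso nice_H nice_T y hω hr,
    spec_ne _ fun _ h => h, spec_ne _ fun _ _ => trivial⟩

end Pool.Agent.Results.MP_efec2f_gt.No
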